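import Pool.Agent.L0h16.PZ.Stm
import Pool.Agent.L0h78.HZ.NIL

/-!
# Project PZ (helper16), module LIMH (by helper85, after `Pool.Agent.L0h78.HZ.t_NIL`)
-/

set_option autoImplicit false

namespace Pool.Agent.L0h85.PZ

open Pool.Agent.Y167 (Sys cone)
open Pool.Agent.L0h18.HZ
open Pool.Agent.L0h78.HZ
open Pool.Agent.L0h16.PZ
open Filter Topology

theorem t_LIMH : S_LIMH := by
  intro A _ _ r ρ S Φ hH 𝒢 h𝒢 y hyR hy x x' hx'
  obtain ⟨F, hF, hFu, hidx⟩ := h𝒢.idx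
  -- pigeonhole
  choose! w hw T hT hA using fun j : ℕ => hidx (1 + ((j : ℤ) : ℝ) • y) (unit_R hyR hy j)
  have hfin : Finite F := hF
  obtain ⟨j, j', hjj, hww⟩ := Finite.exists_ne_map_eq_of_infinite (fun j : ℕ => (⟨w j, hw j⟩ : F))
  have hww' : w j = w j' := congrArg Subtype.val hww
  obtain ⟨-, v, -, hwv, hvw⟩ := hFu _ (hw j')
  have hTi : Acts S Φ (T j')⁻¹ (v * (1 + ((-(j' : ℤ) : ℤ) : ℝ) • y)) := by
    apply acts_inv (hA j')
    have e : (1 + ((j' : ℤ) : ℝ) • y) * (1 + ((-(j' : ℤ) : ℤ) : ℝ) • y) = 1 := by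
      rw [sq_mul hy]
      push_cast
      simp
    calc (1 + ((j' : ℤ) : ℝ) • y) * w j' * (v * (1 + ((-(j' : ℤ) : ℤ) : ℝ) • y))
        = (1 + ((j' : ℤ) : ℝ) • y) * (w j' * v) * (1 + ((-(j' : ℤ) : ℤ) : ℝ) • y) := by
          simp only [mul_assoc]
      _ = 1 := by rw [hwv, mul_one, e]
  have hTT : Acts S Φ ((T j')⁻¹ * T j) (1 + ((j : ℝ) - j') • y) := by
    have h1 := acts_mul hTi (hA j)
    have e : (1 + ((j : ℤ) : ℝ) • y) * w j * (v * (1 + ((-(j' : ℤ) : ℤ) : ℝ) • y)) =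
        1 + ((j : ℝ) - j') • y := by
      calc (1 + ((j : ℤ) : ℝ) • y) * w j * (v * (1 + ((-(j' : ℤ) : ℤ) : ℝ) • y))
          = (1 + ((j : ℤ) : ℝ) • y) * (w j' * v) * (1 + ((-(j' : ℤ) : ℤ) : ℝ) • y) := by
            rw [hww']
            simp only [mul_assoc]
        _ = 1 + ((j : ℝ) - j') • y := by
            rw [hwv, mul_one, sq_mul hy]
            push_cast
            congr 2
            
    rwa [e] at h1
  set m : ℝ := (j : ℝ) - j' with hm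
  have hm0 : m ≠ 0 := by
    rw [hm, sub_ne_zero]
    exact_mod_cast hjj
  set U := (T j')⁻¹ * T j with hU
  have hU𝒢 : U ∈ 𝒢 := h𝒢.mul _ (h𝒢.inv _ (hT j')) _ (hT j)
  have hpow : ∀ k : ℕ, U ^ (k + 1) ∈ 𝒢 := by
    intro k
    induction k with
    | zero => simpa using hU𝒢
    | succ k ih =>
      rw [pow_succ]
      exact h𝒢.mul _ ih _ hU𝒢
  -- the linear term
  have hsa : S.st (Φ x) = Φ x := (hH.range _).2 ⟨x, rfl⟩
  obtain ⟨x₁, hx₁⟩ := (hH.range (S.st y * Φ x + Φ x * y)).1 (by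
    rw [map_add, S.st_mul, S.st_mul, S.st_st, hsa, add_comm])
  have hform : ∀ k : ℕ, (U ^ k) x = x + ((k : ℝ) * m) • x₁ + ((k : ℝ) * m) ^ 2 • x' := by
    intro k
    apply hH.inj
    have eR : Φ (x + ((k : ℝ) * m) • x₁ + ((k : ℝ) * m) ^ 2 • x') =
        Φ x + ((k : ℝ) * m) • Φ x₁ + ((k : ℝ) * m) ^ 2 • Φ x' := by
      simp only [map_add, map_smul]
    have eL : S.st (1 + ((k : ℝ) * m) • y) = 1 + ((k : ℝ) * m) • S.st y := by
      rw [map_add, map_smul, S.st_one]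
    rw [acts_pow hy hTT k x, eR, eL, hx₁, hx']
    generalize (k : ℝ) * m = t
    simp only [add_mul, mul_add, one_mul, mul_one, smul_mul_assoc, mul_smul_comm, smul_add,
      smul_smul, sq]
    abel
  have h1 : Tendsto (fun k : ℕ => 1 / ((k : ℝ) * m)) atTop (𝓝 0) := by
    have h2 : Tendsto (fun k : ℕ => (1 / (k : ℝ)) * (1 / m)) atTop (𝓝 (0 * (1 / m))) :=
      tendsto_one_div_atTop_nhds_zero_nat.mul_const _
    rw [zero_mul] at h2
    refine h2.congr fun k => ?_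
    rw [one_div_mul_one_div]
  have hlim : Tendsto (fun k : ℕ => (1 / ((k : ℝ) * m) ^ 2) • (U ^ k) x) atTop (𝓝 x') := by
    have h3 : Tendsto (fun k : ℕ => (1 / ((k : ℝ) * m)) ^ 2 • x + (1 / ((k : ℝ) * m)) • x₁ + x')
        atTop (𝓝 ((0 : ℝ) ^ 2 • x + (0 : ℝ) • x₁ + x')) :=
      (((h1.pow 2).smul_const x).add (h1.smul_const x₁)).add_const x'
    have e0 : (0 : ℝ) ^ 2 • x + (0 : ℝ) • x₁ + x' = x' := by simp
    rw [e0] at h3
    refine h3.congr' ?_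
    filter_upwards [eventually_gt_atTop 0] with k hk
    have hk0 : (k : ℝ) * m ≠ 0 := mul_ne_zero (by exact_mod_cast hk.ne') hm0
    rw [hform k]
    generalize (k : ℝ) * m = t at hk0 ⊢
    rw [smul_add, smul_add, smul_smul, smul_smul]
    have e1 : 1 / t ^ 2 * t = 1 / t := by field_simp
    have e2 : 1 / t ^ 2 * t ^ 2 = 1 := by field_simp
    rw [e1, e2, one_smul, one_div_pow]
  have ht : Tendsto (fun k : ℕ => 1 / ((k : ℝ) * m) ^ 2) atTop (𝓝 0) := by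
    have h4 := h1.pow 2
    rw [show ((0 : ℝ) ^ 2) = 0 by norm_num] at h4
    refine h4.congr fun k => ?_
    rw [one_div_pow]
  exact ⟨fun k => U ^ (k + 1), fun k => 1 / (((k + 1 : ℕ) : ℝ) * m) ^ 2, hpow,
    fun k => by positivity, ht.comp (tendsto_add_atTop_nat 1), hlim.comp (tendsto_add_atTop_nat 1)⟩

end Pool.Agent.L0h85.PZ
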